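import Pool.Agent.H34.CH.Fin

/-!
# Convex families of functions on spaces of vector fields, and closed affine manifolds

Chern's conjecture says that closed affine manifolds have Euler characteristic zero. By Poincare and
Hopf the Euler characteristic is zero if a finite covering has a vector field without zeros. We
prove a criterion for this.

Let the fundamental group of a finite covering of a closed affine manifold act on a finite
dimensional vector space `V` with continuous equivariant linear maps to the tangent spaces, for
instance on a space of vector fields (constant, affine, polynomial) with their values. Let it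
preserve, up to positive factors, a convex set of continuous functions `F` on `V` such that all
vector fields `v` with `F v < 0` have no zeros, and such that `{F < 0}` is a nonempty convex set, for
all `F`, or, for all `F`, the union of `C` and `-C` for a nonempty open convex set `C` that does not
contain zero. (No single `F` has to be preserved. The set `C` depends on `F`, and may be replaced by
`-C`.) Then there is a vector field without zeros on a covering of degree at most two.

For example `V` is the space `E` of the constant vector fields with the action of the linear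
holonomy, and the functions are `v ↦ B v v` for a convex set of symmetric bilinear forms `B` with one
negative direction (`forms` below).

The main point of the proof is that one of the sets `C` and `-C` can be selected coherently for all
members of a convex family. This gives a character of the group with values `1` and `-1`; on its
kernel averages of the members define an equivariant map with convex values.
-/

set_option autoImplicit false

namespace Pool.Agent.Results.MP_1fa9a4_gt.ConvexFamilies

variable {X Γ E : Type} [TopologicalSpace X] [Group Γ] [MulAction Γ X] [NormedAddCommGroup E]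
  [NormedSpace ℝ E]

/-- A closed affine manifold `Γ \ X`, given by a cover `X`, the group `Γ` of deck transformations,
the developing map and the affine holonomy. -/
structure ClosedAffine (X Γ E : Type) [TopologicalSpace X] [Group Γ] [MulAction Γ X]
    [NormedAddCommGroup E] [NormedSpace ℝ E] (dev : X → E) (hol : Γ →* (E ≃ᵃ[ℝ] E)) : Prop where
  /-- the developing map is a local homeomorphism -/
  loc : IsLocalHomeomorph dev
  /-- the group acts by homeomorphisms -/
  cont : ∀ γ : Γ, Continuous fun x : X => γ • x
  /-- the developing map is equivariant -/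
  equi : ∀ (γ : Γ) (x : X), dev (γ • x) = hol γ (dev x)
  /-- the action is properly discontinuous -/
  pd : ∀ K : Set X, IsCompact K → {γ : Γ | ∃ x ∈ K, γ • x ∈ K}.Finite
  /-- the quotient is compact -/
  cc : ∃ K : Set X, IsCompact K ∧ ∀ x : X, ∃ γ : Γ, ∃ k ∈ K, γ • k = x

/-- the covering `K \ X` has a continuous vector field without zeros -/
def HasField (hol : Γ →* (E ≃ᵃ[ℝ] E)) (X : Type) [TopologicalSpace X] [MulAction Γ X]
    (K : Subgroup Γ) : Prop :=
  ∃ Z : X → E, Continuous Z ∧ (∀ γ ∈ K, ∀ x : X, Z (γ • x) = (hol γ).linear (Z x)) ∧ ∀ x, Z x ≠ 0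

section
variable {V : Type} [NormedAddCommGroup V] [NormedSpace ℝ V]

/-- `{F < 0}` is convex and not empty -/
def OneSided (F : V → ℝ) : Prop := Convex ℝ {v | F v < 0} ∧ ∃ v, F v < 0

/-- `{F < 0}` is the union of `C` and `-C`, for a nonempty open convex set `C` that does not contain
zero -/
def TwoSided (F : V → ℝ) : Prop :=
  ∃ C : Set V, IsOpen C ∧ Convex ℝ C ∧ C.Nonempty ∧ (0 : V) ∉ C ∧ ∀ v, F v < 0 ↔ v ∈ C ∨ -v ∈ C

/-- a nonempty convex set of continuous functions on `V`, all of them one-sided or all of them
two-sided, which is preserved by `K` up to positive factors -/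
structure Family (K : Subgroup Γ) (l : K →* Module.End ℝ V) (𝒬 : Set (V → ℝ)) : Prop where
  nonempty : 𝒬.Nonempty
  convex : Convex ℝ 𝒬
  continuous : ∀ F ∈ 𝒬, Continuous F
  sides : (∀ F ∈ 𝒬, OneSided F) ∨ ∀ F ∈ 𝒬, TwoSided F
  preserved : ∀ γ : K, ∀ F ∈ 𝒬, ∃ F' ∈ 𝒬, ∃ c : ℝ, 0 < c ∧ ∀ v, F (l γ v) = c * F' v

/-- `K` acts linearly on `V`, and the linear maps `ι x` from `V` to the tangent vectors at the
points `x` are continuous and equivariant. (If `V` is a space of vector fields on `E`, permuted by
the holonomy of `K`, then `ι x v` is the value of `v` at `dev x`.) -/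
structure Evaluation (hol : Γ →* (E ≃ᵃ[ℝ] E)) (K : Subgroup Γ) (l : K →* Module.End ℝ V)
    (ι : X → V →ₗ[ℝ] E) : Prop where
  cont : Continuous fun p : X × V => ι p.1 p.2
  equi : ∀ (γ : K) (x : X) (v : V), ι (γ.1 • x) (l γ v) = (hol γ.1).linear (ι x v)

/-- the vector fields `v` with `F v < 0`, for some member `F`, have no zeros -/
def ZeroFree (ι : X → V →ₗ[ℝ] E) (𝒬 : Set (V → ℝ)) : Prop :=
  ∀ F ∈ 𝒬, ∀ v, F v < 0 → ∀ x, ι x v ≠ 0

end

theorem fam_of {V : Type} [NormedAddCommGroup V] [NormedSpace ℝ V] {K : Subgroup Γ}
    {l : K →* Module.End ℝ V} {𝒬 : Set (V → ℝ)} (h : Family K l 𝒬) :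
    Pool.Agent.H34.CH.Fam1 𝒬 ∨ Pool.Agent.H34.CH.Fam 𝒬 := by
  rcases h.sides with hs | hs
  · exact Or.inl ⟨h.nonempty, h.convex, h.continuous, fun F hF => (hs F hF).1,
      fun F hF => (hs F hF).2⟩
  · refine Or.inr ⟨h.nonempty, h.convex, h.continuous, fun F hF => ?_⟩
    obtain ⟨C, h1, h2, h3, h4, h5⟩ := hs F hF
    refine ⟨C, h1, h2, h3, h5, fun v hv hv' => h4 ?_⟩
    have h6 := h2 hv hv' (a := 1 / 2) (b := 1 / 2) (by norm_num) (by norm_num) (by norm_num)
    rwa [smul_neg, add_neg_cancel] at h6

/-- **Theorem.** Let `Γ \ X` be a closed affine manifold, `K` a subgroup of finite index of `Γ` and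
`V` a finite dimensional vector space with a linear action of `K` and continuous equivariant linear
maps to the tangent spaces. If a family on `V` is preserved by `K` and zero-free, then there is a
continuous vector field without zeros on the covering given by a subgroup `K' ≤ K` of index at most
two in `K`. -/
theorem result [T2Space X] [FiniteDimensional ℝ E] {dev : X → E} {hol : Γ →* (E ≃ᵃ[ℝ] E)}
    (D : ClosedAffine X Γ E dev hol) (K : Subgroup Γ) (hK : K.FiniteIndex)
    (V : Type) [NormedAddCommGroup V] [NormedSpace ℝ V] [FiniteDimensional ℝ V]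
    (l : K →* Module.End ℝ V) (ι : X → V →ₗ[ℝ] E) (hι : Evaluation hol K l ι)
    (𝒬 : Set (V → ℝ)) (h𝒬 : Family K l 𝒬) (hz : ZeroFree ι 𝒬) :
    ∃ K' ≤ K, K'.FiniteIndex ∧ K'.index ≤ 2 * K.index ∧ HasField hol X K' := by
  have D' : Pool.Agent.W689.Ch.AffMfd X Γ E dev hol := ⟨D.loc, D.cont, D.equi, D.pd, D.cc⟩
  obtain ⟨K', h1, h2, h3, h4⟩ := Pool.Agent.H34.CH.whole D' K hK l ι hι.cont hι.equi (fam_of h𝒬)
    h𝒬.preserved hz
  exact ⟨K', h1, h2, h3, h4⟩

/-- Example: the functions `v ↦ B v v` are two-sided if the symmetric bilinear form `B` is negative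
on a vector and nonnegative on its orthogonal complement. -/
theorem forms {V : Type} [NormedAddCommGroup V] [NormedSpace ℝ V] [FiniteDimensional ℝ V]
    (B : V →ₗ[ℝ] V →ₗ[ℝ] ℝ) (hs : ∀ x y, B x y = B y x)
    (h : ∃ v, B v v < 0 ∧ ∀ w, B v w = 0 → 0 ≤ B w w) : TwoSided fun v => B v v := by
  obtain ⟨C, hC⟩ := Pool.Agent.H34.CH.form_dc (B := B) ⟨hs, h⟩
  refine ⟨C, hC.op, hC.conv, hC.ne, fun h0 => ?_, hC.iff⟩
  have h1 := hC.dis 0 h0
  rw [neg_zero] at h1
  exact h1 h0

end Pool.Agent.Results.MP_1fa9a4_gt.ConvexFamilies
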