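import Pool.Agent.H34.CH.Fin

/-!
# No invariant convex families of functions over the minimal invariant subspace

Chern's conjecture says that closed affine manifolds have Euler characteristic zero. A closed
affine manifold with non-zero Euler characteristic has no finite covering with a vector field
without zeros (Poincare and Hopf). We prove that for every closed affine manifold with this property
there is, after a finite covering, an invariant affine subspace `H` of positive dimension, which
meets the developing image, such that for all subgroups `K` of finite index the following holds.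

Let `V` be a finite dimensional space of tangent vector fields over `H`, on which `K` acts. If `K`
preserves, up to positive factors, a convex set of continuous functions `F` on `V` such that
`{F < 0}` is a nonempty convex set, for all `F`, or, for all `F`, the union of `C` and `-C` for a
nonempty open convex set `C` that does not contain zero, then there are a member `F` and a field
`v` with `F v < 0` which has a zero.

For example no subgroup of finite index preserves, up to positive factors, a convex set of
symmetric bilinear forms with one negative direction on the vector space of `H`, or of a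
non-trivial invariant subspace (constant vector fields). No single form has to be preserved.

By the known cases of the conjecture `H` has dimension at least four. So in dimension four `H` is
the whole affine space.
-/

set_option autoImplicit false

namespace Pool.Agent.Results.MP_1fa9a4_gt.FamiliesOverCore

variable {X Γ E : Type} [TopologicalSpace X] [Group Γ] [MulAction Γ X] [NormedAddCommGroup E]
  [NormedSpace ℝ E]

/-- A closed affine manifold `Γ \ X`, given by a cover `X`, the group `Γ` of deck transformations,
the developing map and the affine holonomy. -/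
structure ClosedAffine (X Γ E : Type) [TopologicalSpace X] [Group Γ] [MulAction Γ X]
    [NormedAddCommGroup E] [NormedSpace ℝ E] (dev : X → E) (hol : Γ →* (E ≃ᵃ[ℝ] E)) : Prop where
  /-- the developing map is a local homeomorphism -/
  loc : IsLocalHomeomorph dev
  /-- the group acts by homeomorphisms -/
  cont : ∀ γ : Γ, Continuous fun x : X => γ • x
  /-- the developing map is equivariant -/
  equi : ∀ (γ : Γ) (x : X), dev (γ • x) = hol γ (dev x)
  /-- the action is properly discontinuous -/
  pd : ∀ K : Set X, IsCompact K → {γ : Γ | ∃ x ∈ K, γ • x ∈ K}.Finite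
  /-- the quotient is compact -/
  cc : ∃ K : Set X, IsCompact K ∧ ∀ x : X, ∃ γ : Γ, ∃ k ∈ K, γ • k = x

/-- the covering `K \ X` has a continuous vector field without zeros -/
def HasField (hol : Γ →* (E ≃ᵃ[ℝ] E)) (X : Type) [TopologicalSpace X] [MulAction Γ X]
    (K : Subgroup Γ) : Prop :=
  ∃ Z : X → E, Continuous Z ∧ (∀ γ ∈ K, ∀ x : X, Z (γ • x) = (hol γ).linear (Z x)) ∧ ∀ x, Z x ≠ 0

section
variable {V : Type} [NormedAddCommGroup V] [NormedSpace ℝ V]

/-- `{F < 0}` is convex and not empty -/
def OneSided (F : V → ℝ) : Prop := Convex ℝ {v | F v < 0} ∧ ∃ v, F v < 0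

/-- `{F < 0}` is the union of `C` and `-C`, for a nonempty open convex set `C` that does not contain
zero -/
def TwoSided (F : V → ℝ) : Prop :=
  ∃ C : Set V, IsOpen C ∧ Convex ℝ C ∧ C.Nonempty ∧ (0 : V) ∉ C ∧ ∀ v, F v < 0 ↔ v ∈ C ∨ -v ∈ C

/-- a nonempty convex set of continuous functions on `V`, all of them one-sided or all of them
two-sided, which is preserved by `K` up to positive factors -/
structure Family (K : Subgroup Γ) (l : K →* Module.End ℝ V) (𝒬 : Set (V → ℝ)) : Prop where
  nonempty : 𝒬.Nonempty
  convex : Convex ℝ 𝒬
  continuous : ∀ F ∈ 𝒬, Continuous F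
  sides : (∀ F ∈ 𝒬, OneSided F) ∨ ∀ F ∈ 𝒬, TwoSided F
  preserved : ∀ γ : K, ∀ F ∈ 𝒬, ∃ F' ∈ 𝒬, ∃ c : ℝ, 0 < c ∧ ∀ v, F (l γ v) = c * F' v

/-- `K` acts linearly on `V`, and the linear maps `ι x` from `V` to the tangent vectors of `H` at
the points `x` developed into `H` are continuous and equivariant. (If `V` is a space of vector
fields on `H`, permuted by the holonomy of `K`, then `ι x v` is the value of `v` at `dev x`.) -/
structure Evaluation (dev : X → E) (hol : Γ →* (E ≃ᵃ[ℝ] E)) (K : Subgroup Γ)
    (H : AffineSubspace ℝ E) (l : K →* Module.End ℝ V) (ι : X → V →ₗ[ℝ] E) : Prop where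
  cont : ContinuousOn (fun p : X × V => ι p.1 p.2) {p | dev p.1 ∈ H}
  tangent : ∀ x, dev x ∈ H → ∀ v, ι x v ∈ H.direction
  equi : ∀ (γ : K) (x : X), dev x ∈ H → ∀ v, ι (γ.1 • x) (l γ v) = (hol γ.1).linear (ι x v)

end

theorem fam_of {V : Type} [NormedAddCommGroup V] [NormedSpace ℝ V] {K : Subgroup Γ}
    {l : K →* Module.End ℝ V} {𝒬 : Set (V → ℝ)} (h : Family K l 𝒬) :
    Pool.Agent.H34.CH.Fam1 𝒬 ∨ Pool.Agent.H34.CH.Fam 𝒬 := by
  rcases h.sides with hs | hs
  · exact Or.inl ⟨h.nonempty, h.convex, h.continuous, fun F hF => (hs F hF).1,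
      fun F hF => (hs F hF).2⟩
  · refine Or.inr ⟨h.nonempty, h.convex, h.continuous, fun F hF => ?_⟩
    obtain ⟨C, h1, h2, h3, h4, h5⟩ := hs F hF
    refine ⟨C, h1, h2, h3, h5, fun v hv hv' => h4 ?_⟩
    have h6 := h2 hv hv' (a := 1 / 2) (b := 1 / 2) (by norm_num) (by norm_num) (by norm_num)
    rwa [smul_neg, add_neg_cancel] at h6

/-- **Theorem.** Let `Γ \ X` be a closed affine manifold of positive dimension, with `X` connected,
such that no finite covering of it has a vector field without zeros (this is the case if its Euler
characteristic is not zero). Then there are a subgroup `G` of finite index and a `G`-invariant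
affine subspace `H` of positive dimension, which meets the developing image, such that for every
subgroup `K` of finite index in `G`, for every finite dimensional space `V` of tangent vector
fields over `H` with an action of `K`, and for every family on `V` preserved by `K`, there are a
member `F` of the family and a field `v` with `F v < 0` which has a zero. -/
theorem result [T2Space X] [ConnectedSpace X] [FiniteDimensional ℝ E] [Nontrivial E]
    {dev : X → E} {hol : Γ →* (E ≃ᵃ[ℝ] E)} (D : ClosedAffine X Γ E dev hol)
    (hno : ∀ K : Subgroup Γ, K.FiniteIndex → ¬ HasField hol X K) :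
    ∃ (G : Subgroup Γ) (H : AffineSubspace ℝ E), G.FiniteIndex ∧
      (∀ γ ∈ G, ∀ q ∈ H, hol γ q ∈ H) ∧ H.direction ≠ ⊥ ∧ (∃ x, dev x ∈ H) ∧
      ∀ K ≤ G, K.FiniteIndex →
        ∀ (V : Type) [NormedAddCommGroup V] [NormedSpace ℝ V] [FiniteDimensional ℝ V]
          (l : K →* Module.End ℝ V) (ι : X → V →ₗ[ℝ] E), Evaluation dev hol K H l ι →
          ∀ 𝒬 : Set (V → ℝ), Family K l 𝒬 →
            ∃ F ∈ 𝒬, ∃ v, F v < 0 ∧ ∃ x, dev x ∈ H ∧ ι x v = 0 := by
  have D' : Pool.Agent.W689.Ch.AffMfd X Γ E dev hol := ⟨D.loc, D.cont, D.equi, D.pd, D.cc⟩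
  obtain ⟨G, H, x₀, m⟩ := Pool.Agent.Y150.Ch.exists_min D' (by
    rintro K hK ⟨Z, hZ1, hZ2, hZ3⟩
    refine hno K hK ⟨Z, ?_, fun γ hγ x => ?_, fun x => ?_⟩
    · have : {x : X | dev x ∈ (⊤ : AffineSubspace ℝ E)} = Set.univ := by
        ext x
        simp
      rw [this] at hZ1
      exact continuousOn_univ.1 hZ1
    · exact hZ3 ⟨γ, hγ⟩ x (AffineSubspace.mem_top ℝ E _)
    · exact (hZ2 x (AffineSubspace.mem_top ℝ E _)).2)
  refine ⟨G, H, m.fin, m.inv, m.dir, ⟨x₀, m.mem⟩, fun K hKG hK => ?_⟩
  intro V _ _ _ l ι he 𝒬 h𝒬
  exact Pool.Agent.H34.CH.no_rep D' m hKG hK l ι he.cont he.tangent he.equi (fam_of h𝒬)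
    h𝒬.preserved

end Pool.Agent.Results.MP_1fa9a4_gt.FamiliesOverCore
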